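import Mathlib

set_option autoImplicit false

/-!
# Cancellation of a factor with two points

`X × Bool` with the maximum of the distance of `X` and of `s` times the discrete distance of `Bool`
determines the metric space `X`.
-/

namespace Pool.Agent.H660.PD

open Function

universe u v

lemma inj_choice {α : Type u} {β : Type v} (e : α × Bool ≃ β × Bool) :
    ∃ f : α → β, Injective f ∧ ∀ c, ∃ i, (e (c, i)).1 = f c := by
  classical
  let t : α → Finset β := fun c => Finset.univ.image (fun i : Bool => (e (c, i)).1)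
  have h1 : ∀ s : Finset α, s.card ≤ (s.biUnion t).card := by
    intro s
    have h2 : (s ×ˢ (Finset.univ : Finset Bool)).image e ⊆
        (s.biUnion t) ×ˢ (Finset.univ : Finset Bool) := by
      intro q hq
      obtain ⟨p, hp, rfl⟩ := Finset.mem_image.1 hq
      rw [Finset.mem_product] at hp ⊢
      refine ⟨Finset.mem_biUnion.2 ⟨p.1, hp.1, ?_⟩, Finset.mem_univ _⟩
      exact Finset.mem_image.2 ⟨p.2, Finset.mem_univ _, rfl⟩
    have h3 := Finset.card_le_card h2
    rw [Finset.card_image_of_injective _ e.injective, Finset.card_product, Finset.card_product] at h3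
    simpa using h3
  obtain ⟨f, hf, hf2⟩ := (Finset.all_card_le_biUnion_card_iff_exists_injective t).1 h1
  refine ⟨f, hf, fun c => ?_⟩
  obtain ⟨i, _, hi⟩ := Finset.mem_image.1 (hf2 c)
  exact ⟨i, hi⟩

/-- A bijection of `α × Bool` and `β × Bool` contains a bijection of `α` and `β`. -/
lemma exists_half {α : Type u} {β : Type v} (e : α × Bool ≃ β × Bool) :
    ∃ i : α → Bool, Bijective fun c => (e (c, i c)).1 := by
  obtain ⟨f, hf, hf2⟩ := inj_choice e
  obtain ⟨g, hg, hg2⟩ := inj_choice e.symm
  obtain ⟨h, hh, hh2⟩ := Function.Embedding.schroeder_bernstein_of_rel hf hg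
    (fun a b => ∃ i, (e (a, i)).1 = b) hf2 (fun b => by
      obtain ⟨j, hj⟩ := hg2 b
      refine ⟨(e.symm (b, j)).2, ?_⟩
      rw [← hj]
      simp)
  choose i hi using hh2
  refine ⟨i, ?_⟩
  have : (fun c => (e (c, i c)).1) = h := funext hi
  rw [this]
  exact hh

/-- `x` and `y` are joined by a finite chain with steps less than `r`. -/
def Ch (r : ℝ) {X : Type u} [MetricSpace X] : X → X → Prop :=
  Relation.ReflTransGen fun x y => dist x y < r

section
variable {X : Type u} [MetricSpace X] {Y : Type v} [MetricSpace Y] {r : ℝ}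

lemma Ch.refl (x : X) : Ch r x x := Relation.ReflTransGen.refl

lemma Ch.symm {x y : X} (h : Ch r x y) : Ch r y x := by
  induction h with
  | refl => exact Ch.refl _
  | tail _ h ih =>
    rename_i y z _
    exact Relation.ReflTransGen.head (show dist z y < r by rw [dist_comm]; exact h) ih

lemma Ch.trans {x y z : X} (h : Ch r x y) (h2 : Ch r y z) : Ch r x z :=
  Relation.ReflTransGen.trans h h2

lemma ch_of_lt {x y : X} (h : dist x y < r) : Ch r x y := Relation.ReflTransGen.single h

lemma Ch.mono {r' : ℝ} (hr : r ≤ r') {x y : X} (h : Ch r x y) : Ch r' x y := by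
  induction h with
  | refl => exact Ch.refl _
  | tail _ h ih => exact Relation.ReflTransGen.tail ih (lt_of_lt_of_le h hr)

/-- the components -/
def chS (r : ℝ) (X : Type u) [MetricSpace X] : Setoid X where
  r := Ch r
  iseqv := ⟨Ch.refl, Ch.symm, Ch.trans⟩

/-- The distance of `X × Bool`. -/
noncomputable def D0 (s : ℝ) (p q : X × Bool) : ℝ :=
  max (dist p.1 q.1) (if p.2 = q.2 then 0 else s)

lemma D0_comm (s : ℝ) (p q : X × Bool) : D0 s p q = D0 s q p := by
  unfold D0
  rw [dist_comm]
  simp only [eq_comm]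

/-- chains in `X × Bool` -/
def Ch0 (s : ℝ) : X × Bool → X × Bool → Prop := Relation.ReflTransGen fun p q => D0 s p q < s

lemma ch0_iff {s : ℝ} (hs : 0 < s) (p q : X × Bool) : Ch0 s p q ↔ p.2 = q.2 ∧ Ch s p.1 q.1 := by
  constructor
  · intro h
    induction h with
    | refl => exact ⟨rfl, Ch.refl _⟩
    | tail _ h ih =>
      rename_i y z _
      unfold D0 at h
      by_cases hyz : y.2 = z.2
      · refine ⟨ih.1.trans hyz, ih.2.trans (ch_of_lt ?_)⟩
        exact lt_of_le_of_lt (le_max_left _ _) h
      · rw [if_neg hyz] at h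
        exact absurd h (not_lt.2 (le_max_right _ _))
  · rintro ⟨h1, h2⟩
    obtain ⟨x, i⟩ := p
    obtain ⟨y, j⟩ := q
    simp only at h1 h2
    subst h1
    induction h2 with
    | refl => exact Relation.ReflTransGen.refl
    | tail _ h ih =>
      refine Relation.ReflTransGen.tail ih ?_
      simp only [D0, if_true]
      exact max_lt h hs

variable {s : ℝ}

lemma ch0_map (e : X × Bool ≃ Y × Bool) (he : ∀ p q, D0 s (e p) (e q) = D0 s p q)
    {p q : X × Bool} (h : Ch0 s p q) : Ch0 s (e p) (e q) := by
  induction h with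
  | refl => exact Relation.ReflTransGen.refl
  | tail _ h ih => exact Relation.ReflTransGen.tail ih (by rw [he]; exact h)

/-- The map of components. -/
def liftE (hs : 0 < s) (e : X × Bool ≃ Y × Bool) (he : ∀ p q, D0 s (e p) (e q) = D0 s p q)
    (p : Quotient (chS s X) × Bool) : Quotient (chS s Y) × Bool :=
  Quotient.lift (s := chS s X)
    (fun x => ((Quotient.mk (chS s Y) (e (x, p.2)).1, (e (x, p.2)).2) :
      Quotient (chS s Y) × Bool)) (by
    intro a b hab
    have h1 : Ch0 s (a, p.2) (b, p.2) := (ch0_iff hs _ _).2 ⟨rfl, hab⟩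
    have h2 := (ch0_iff hs _ _).1 (ch0_map e he h1)
    exact Prod.ext (Quotient.sound (s := chS s Y) h2.2) h2.1) p.1

lemma liftE_symm (hs : 0 < s) (e : X × Bool ≃ Y × Bool)
    (he : ∀ p q, D0 s (e p) (e q) = D0 s p q) (he' : ∀ p q, D0 s (e.symm p) (e.symm q) = D0 s p q)
    (p : Quotient (chS s X) × Bool) : liftE hs e.symm he' (liftE hs e he p) = p := by
  obtain ⟨c, i⟩ := p
  induction c using Quotient.inductionOn with
  | h x =>
    have h1 : liftE hs e he (Quotient.mk (chS s X) x, i) =
      (Quotient.mk (chS s Y) (e (x, i)).1, (e (x, i)).2) := rfl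
    rw [h1]
    have h2 : liftE hs e.symm he' (Quotient.mk (chS s Y) (e (x, i)).1, (e (x, i)).2) =
      (Quotient.mk (chS s X) (e.symm ((e (x, i)).1, (e (x, i)).2)).1,
        (e.symm ((e (x, i)).1, (e (x, i)).2)).2) := rfl
    rw [h2]
    simp

/-- **Cancellation.** -/
theorem cancel (hs : 0 < s) (e : X × Bool ≃ Y × Bool)
    (he : ∀ p q, D0 s (e p) (e q) = D0 s p q) : Nonempty (X ≃ᵢ Y) := by
  have he' : ∀ p q, D0 s (e.symm p) (e.symm q) = D0 s p q := fun p q => by
    rw [← he, e.apply_symm_apply, e.apply_symm_apply]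
  let E : Quotient (chS s X) × Bool ≃ Quotient (chS s Y) × Bool :=
    { toFun := liftE hs e he
      invFun := liftE hs e.symm he'
      left_inv := liftE_symm hs e he he'
      right_inv := fun p => liftE_symm hs e.symm he' (by simpa using he) p }
  obtain ⟨i, hi⟩ := exists_half E
  have hE : ∀ x k, E (Quotient.mk (chS s X) x, k) =
      (Quotient.mk (chS s Y) (e (x, k)).1, (e (x, k)).2) := fun _ _ => rfl
  let φ : X → Y := fun x => (e (x, i (Quotient.mk (chS s X) x))).1
  have key : ∀ x y, dist (φ x) (φ y) = dist x y := by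
    intro x y
    by_cases hxy : Quotient.mk (chS s X) x = Quotient.mk (chS s X) y
    · have h1 : Ch s x y := Quotient.exact (s := chS s X) hxy
      have h2 : φ x = (e (x, i (Quotient.mk (chS s X) y))).1 := by simp only [φ, hxy]
      have h3 : φ y = (e (y, i (Quotient.mk (chS s X) y))).1 := rfl
      set k := i (Quotient.mk (chS s X) y)
      have h4 : Ch0 s (x, k) (y, k) := (ch0_iff hs _ _).2 ⟨rfl, h1⟩
      have h5 := ((ch0_iff hs _ _).1 (ch0_map e he h4)).1
      have h6 := he (x, k) (y, k)
      unfold D0 at h6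
      rw [if_pos h5] at h6
      simp only [if_true] at h6
      rw [max_eq_left dist_nonneg, max_eq_left dist_nonneg] at h6
      rw [h2, h3]; exact h6
    · have h1 : s ≤ dist x y := by
        by_contra h
        exact hxy (Quotient.sound (s := chS s X) (ch_of_lt (not_le.1 h)))
      have h2 : Quotient.mk (chS s Y) (φ x) ≠ Quotient.mk (chS s Y) (φ y) := by
        intro h
        apply hxy
        apply hi.1
        simpa only [hE] using h
      have h3 : s ≤ dist (φ x) (φ y) := by
        by_contra h
        exact h2 (Quotient.sound (s := chS s Y) (ch_of_lt (not_le.1 h)))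
      have h6 := he (x, i (Quotient.mk (chS s X) x)) (y, i (Quotient.mk (chS s X) y))
      unfold D0 at h6
      have h7 : ∀ (c : Prop) [Decidable c], (if c then 0 else s) ≤ s := by
        intro c _; split_ifs
        · exact hs.le
        · exact le_rfl
      rw [max_eq_left ((h7 _).trans h3), max_eq_left ((h7 _).trans h1)] at h6
      exact h6
  have surj : Function.Surjective φ := by
    intro y
    obtain ⟨c, hc⟩ := hi.2 (Quotient.mk (chS s Y) y)
    induction c using Quotient.inductionOn with
    | h x =>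
      simp only [hE] at hc
      set k := i (Quotient.mk (chS s X) x) with hk
      have h1 : Ch s (e (x, k)).1 y := Quotient.exact (s := chS s Y) hc
      have h2 : Ch0 s (e (x, k)) (y, (e (x, k)).2) := (ch0_iff hs _ _).2 ⟨rfl, h1⟩
      have h3 := ch0_map e.symm he' h2
      rw [e.symm_apply_apply] at h3
      have h4 := (ch0_iff hs _ _).1 h3
      refine ⟨(e.symm (y, (e (x, k)).2)).1, ?_⟩
      have h5 : Quotient.mk (chS s X) (e.symm (y, (e (x, k)).2)).1 = Quotient.mk (chS s X) x :=
        (Quotient.sound (s := chS s X) h4.2).symm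
      show (e ((e.symm (y, (e (x, k)).2)).1, i (Quotient.mk (chS s X)
        (e.symm (y, (e (x, k)).2)).1))).1 = y
      rw [h5, ← hk]
      have h6 : k = (e.symm (y, (e (x, k)).2)).2 := h4.1
      have h7 : ((e.symm (y, (e (x, k)).2)).1, k) = e.symm (y, (e (x, k)).2) :=
        Prod.ext rfl h6
      rw [h7]
      simp
  exact ⟨IsometryEquiv.mk (Equiv.ofBijective φ
    ⟨(Isometry.of_dist_eq key).injective, surj⟩) (Isometry.of_dist_eq key)⟩

end

end Pool.Agent.H660.PD
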