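import Pool.Agent.H660.PD.Decode

set_option autoImplicit false

/-!
# The parameters of the functor for a given distance set
-/

namespace Pool.Agent.H660.PD

open Set TopologicalSpace Filter Topology

/-- The second factor of the functor, as a subset of a product: two points at distance `a` on the
level `0`, one point on the level `1`, and `{0, a} × Z` on the level `2`. -/
def T3s (a b c : ℝ) {Z : Type} (z0 : Z) : Set ((ℝ × ℝ × ℝ) × Z) :=
  {t | (t.1 ∈ ({(0, 0, 0), (0, 0, a), (b, 0, 0)} : Set (ℝ × ℝ × ℝ)) ∧ t.2 = z0) ∨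
    t.1 ∈ ({(0, c, 0), (0, c, a)} : Set (ℝ × ℝ × ℝ))}

section
variable {Z : Type} [MetricSpace Z] {a b c : ℝ} {z0 : Z}

lemma T3_closed : IsClosed (T3s a b c z0) := by
  have h : T3s a b c z0 = (Prod.fst ⁻¹' ({(0, 0, 0), (0, 0, a), (b, 0, 0)} : Set (ℝ × ℝ × ℝ)) ∩
      Prod.snd ⁻¹' {z0}) ∪ Prod.fst ⁻¹' ({(0, c, 0), (0, c, a)} : Set (ℝ × ℝ × ℝ)) := rfl
  rw [h]
  refine IsClosed.union (IsClosed.inter ?_ ?_) ?_
  · exact (Set.Finite.isClosed (by simp)).preimage continuous_fst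
  · exact isClosed_singleton.preimage continuous_snd
  · exact (Set.Finite.isClosed (by simp)).preimage continuous_fst

lemma T3_cases {t : (ℝ × ℝ × ℝ) × Z} (ht : t ∈ T3s a b c z0) :
    t = ((0, 0, 0), z0) ∨ t = ((0, 0, a), z0) ∨ t = ((b, 0, 0), z0) ∨
      (∃ z, t = ((0, c, 0), z)) ∨ ∃ z, t = ((0, c, a), z) := by
  obtain ⟨t, z⟩ := t
  rcases ht with ⟨h, rfl⟩ | h
  · rcases h with h | h | h
    · left; simp only at h; rw [h]
    · right; left; simp only at h; rw [h]
    · right; right; left; simp only [mem_singleton_iff] at h; rw [h]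
  · rcases h with h | h
    · right; right; right; left; simp only at h; rw [h]; exact ⟨z, rfl⟩
    · right; right; right; right; simp only [mem_singleton_iff] at h; rw [h]; exact ⟨z, rfl⟩

lemma m00 : ((0, 0, 0), z0) ∈ T3s a b c z0 := Or.inl ⟨by simp, rfl⟩
lemma m0a : ((0, 0, a), z0) ∈ T3s a b c z0 := Or.inl ⟨by simp, rfl⟩
lemma m1 : ((b, 0, 0), z0) ∈ T3s a b c z0 := Or.inl ⟨by simp, rfl⟩
lemma m20 (z : Z) : ((0, c, 0), z) ∈ T3s a b c z0 := Or.inr (by simp)
lemma m2a (z : Z) : ((0, c, a), z) ∈ T3s a b c z0 := Or.inr (by simp)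

lemma d3 (p q : ℝ × ℝ × ℝ) (z w : Z) : dist (p, z) (q, w) =
    max (max |p.1 - q.1| (max |p.2.1 - q.2.1| |p.2.2 - q.2.2|)) (dist z w) := rfl

/-- The data of the functor. -/
def D3 (a b c : ℝ) (z0 : Z) (ha : 0 < a) (hab : a < b) : Dat (T3s a b c z0) where
  L := {t | t.1.1.1 = b}
  a := a
  b := b
  ha := ha
  hb := (ha.trans hab).le
  hL := by
    rintro ⟨t, ht⟩ h1 ⟨s, hs⟩ h2
    have h1' : t.1.1 = b := h1
    have h2' : ¬ s.1.1 = b := h2
    have h3 : s.1.1 = 0 := by
      rcases T3_cases hs with rfl | rfl | rfl | ⟨z, rfl⟩ | ⟨z, rfl⟩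
      · rfl
      · rfl
      · exact absurd rfl h2'
      · rfl
      · rfl
    show b ≤ dist t s
    have h4 : |t.1.1 - s.1.1| ≤ dist t s := by
      show _ ≤ max (max |t.1.1 - s.1.1| _) _
      exact (le_max_left _ _).trans (le_max_left _ _)
    rw [h1', h3, sub_zero] at h4
    exact (le_abs_self b).trans h4

lemma third {t : (ℝ × ℝ × ℝ) × Z} (ht : t ∈ T3s a b c z0) : t.1.2.2 = 0 ∨ t.1.2.2 = a := by
  rcases T3_cases ht with rfl | rfl | rfl | ⟨z, rfl⟩ | ⟨z, rfl⟩ <;> simp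

lemma ch_third {t s : T3s a b c z0} (h : Ch a t s) : t.1.1.2.2 = s.1.1.2.2 := by
  induction h with
  | refl => rfl
  | tail _ h ih =>
    rename_i y z _
    rw [ih]
    have h1 : |y.1.1.2.2 - z.1.1.2.2| ≤ dist y z := by
      show _ ≤ max (max _ (max _ |y.1.1.2.2 - z.1.1.2.2|)) _
      exact ((le_max_right _ _).trans (le_max_right _ _)).trans (le_max_left _ _)
    have h2 := lt_of_le_of_lt h1 h
    rcases third y.2 with hy | hy <;> rcases third z.2 with hz | hz
    · rw [hy, hz]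
    · rw [hy, hz, zero_sub, abs_neg] at h2
      exact absurd h2 (not_lt.2 (le_abs_self a))
    · rw [hy, hz, sub_zero] at h2
      exact absurd h2 (not_lt.2 (le_abs_self a))
    · rw [hy, hz]

lemma ok3 (ha : 0 < a) (hab : a < b) (hbc : b < c) :
    Ok (D3 a b c z0 ha hab) ⟨((b, 0, 0), z0), m1⟩ ⟨((0, 0, 0), z0), m00⟩
      ⟨((0, 0, a), z0), m0a⟩ where
  h1 := by
    have key : ∀ (p q : T3s a b c z0), dist p q = a → p.1.1.2.2 ≠ q.1.1.2.2 →
        dist p q < b ∧ ¬ Ch a p q := by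
      intro p q h1 h2
      exact ⟨by rw [h1]; exact hab, fun h => h2 (ch_third h)⟩
    have h0 : ∀ x : ℝ, |x - x| = 0 := fun x => by simp
    rintro ⟨t, ht⟩ hL
    have hL' : ¬ t.1.1 = b := hL
    rcases T3_cases ht with rfl | rfl | rfl | ⟨z, rfl⟩ | ⟨z, rfl⟩
    · refine ⟨⟨_, m0a⟩, key _ _ ?_ ha.ne⟩
      show max (max |(0 : ℝ) - 0| (max |(0 : ℝ) - 0| |0 - a|)) (dist z0 z0) = a
      rw [h0, dist_self, zero_sub, abs_neg, abs_of_pos ha, max_eq_right ha.le, max_eq_right ha.le,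
        max_eq_left ha.le]
    · refine ⟨⟨_, m00⟩, key _ _ ?_ ha.ne'⟩
      show max (max |(0 : ℝ) - 0| (max |(0 : ℝ) - 0| |a - 0|)) (dist z0 z0) = a
      rw [h0, dist_self, sub_zero, abs_of_pos ha, max_eq_right ha.le, max_eq_right ha.le,
        max_eq_left ha.le]
    · exact absurd rfl hL'
    · refine ⟨⟨_, m2a z⟩, key _ _ ?_ ha.ne⟩
      show max (max |(0 : ℝ) - 0| (max |c - c| |0 - a|)) (dist z z) = a
      rw [h0, h0, dist_self, zero_sub, abs_neg, abs_of_pos ha, max_eq_right ha.le,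
        max_eq_right ha.le, max_eq_left ha.le]
    · refine ⟨⟨_, m20 z⟩, key _ _ ?_ ha.ne'⟩
      show max (max |(0 : ℝ) - 0| (max |c - c| |a - 0|)) (dist z z) = a
      rw [h0, h0, dist_self, sub_zero, abs_of_pos ha, max_eq_right ha.le,
        max_eq_right ha.le, max_eq_left ha.le]
  h2 := by
    rintro ⟨t, ht⟩
    have hb : b ≠ 0 := (ha.trans hab).ne'
    constructor
    · intro h
      have h' : t.1.1 = b := h
      rcases T3_cases ht with rfl | rfl | rfl | ⟨z, rfl⟩ | ⟨z, rfl⟩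
      · exact absurd h'.symm hb
      · exact absurd h'.symm hb
      · rfl
      · exact absurd h'.symm hb
      · exact absurd h'.symm hb
    · intro h
      have h' : t = ((b, 0, 0), z0) := congrArg Subtype.val h
      subst h'
      exact rfl
  h3 := by
    show max (max |(0 : ℝ) - 0| (max |(0 : ℝ) - 0| |0 - a|)) (dist z0 z0) = a
    rw [sub_self, abs_zero, dist_self, zero_sub, abs_neg, abs_of_pos ha, max_eq_right ha.le,
      max_eq_right ha.le, max_eq_left ha.le]
  h4 := by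
    have hb : 0 < b := ha.trans hab
    show max (max |(0 : ℝ) - b| (max |(0 : ℝ) - 0| |(0 : ℝ) - 0|)) (dist z0 z0) = b
    rw [sub_self, abs_zero, dist_self, zero_sub, abs_neg, abs_of_pos hb, max_self,
      max_eq_left hb.le, max_eq_left hb.le]
  h5 := by
    have hb : 0 < b := ha.trans hab
    show max (max |(0 : ℝ) - b| (max |(0 : ℝ) - 0| |a - 0|)) (dist z0 z0) = b
    rw [sub_self, abs_zero, dist_self, zero_sub, abs_neg, abs_of_pos hb, sub_zero, abs_of_pos ha,
      max_eq_right ha.le, max_eq_left hab.le, max_eq_left hb.le]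
  h6 := by
    rintro ⟨t, ht⟩ h
    have hb : 0 < b := ha.trans hab
    have h' : dist t ((b, 0, 0), z0) = b := h
    rcases T3_cases ht with rfl | rfl | rfl | ⟨z, rfl⟩ | ⟨z, rfl⟩
    · left; rfl
    · right; rfl
    · rw [dist_self] at h'
      exact absurd h' hb.ne
    · have h1 : |c - 0| ≤ dist (((0, c, 0), z) : (ℝ × ℝ × ℝ) × Z) ((b, 0, 0), z0) := by
        show _ ≤ max (max _ (max |c - 0| _)) _
        exact ((le_max_left _ _).trans (le_max_right _ _)).trans (le_max_left _ _)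
      rw [h', sub_zero] at h1
      have := (le_abs_self c).trans h1
      linarith
    · have h1 : |c - 0| ≤ dist (((0, c, a), z) : (ℝ × ℝ × ℝ) × Z) ((b, 0, 0), z0) := by
        show _ ≤ max (max _ (max |c - 0| _)) _
        exact ((le_max_left _ _).trans (le_max_right _ _)).trans (le_max_left _ _)
      rw [h', sub_zero] at h1
      have := (le_abs_self c).trans h1
      linarith
  h7 := ha.trans hab

lemma max_mem {A : Set ℝ} {x y : ℝ} (hx : x ∈ A) (hy : y ∈ A) : max x y ∈ A := by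
  rcases max_choice x y with h | h <;> rw [h] <;> assumption

lemma distSet_T3 {A : Set ℝ} (hZ : distSet Z = A) (hA : a ∈ A) (hB : b ∈ A) (hC : c ∈ A)
    (ha : 0 < a) (hb : 0 < b) (hc : 0 < c) : distSet (T3s a b c z0) = A := by
  have h0 : (0 : ℝ) ∈ A := by rw [← hZ]; exact ⟨z0, z0, dist_self _⟩
  have key : ∀ {x y s : ℝ}, s ∈ A → 0 < s → (x = 0 ∨ x = s) → (y = 0 ∨ y = s) → |x - y| ∈ A := by
    intro x y s hs hs0 hx hy
    rcases hx with rfl | rfl <;> rcases hy with rfl | rfl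
    · simpa using h0
    · rw [zero_sub, abs_neg, abs_of_pos hs0]; exact hs
    · rw [sub_zero, abs_of_pos hs0]; exact hs
    · simpa using h0
  apply Subset.antisymm
  · rintro _ ⟨⟨t, ht⟩, ⟨s, hs⟩, rfl⟩
    show max (max |t.1.1 - s.1.1| (max |t.1.2.1 - s.1.2.1| |t.1.2.2 - s.1.2.2|))
      (dist t.2 s.2) ∈ A
    have f1 : ∀ {t : (ℝ × ℝ × ℝ) × Z}, t ∈ T3s a b c z0 → t.1.1 = 0 ∨ t.1.1 = b := by
      intro t ht
      rcases T3_cases ht with rfl | rfl | rfl | ⟨z, rfl⟩ | ⟨z, rfl⟩ <;> simp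
    have f2 : ∀ {t : (ℝ × ℝ × ℝ) × Z}, t ∈ T3s a b c z0 → t.1.2.1 = 0 ∨ t.1.2.1 = c := by
      intro t ht
      rcases T3_cases ht with rfl | rfl | rfl | ⟨z, rfl⟩ | ⟨z, rfl⟩ <;> simp
    refine max_mem (max_mem (key hB hb (f1 ht) (f1 hs)) (max_mem (key hC hc (f2 ht) (f2 hs))
      (key hA ha (third ht) (third hs)))) ?_
    rw [← hZ]
    exact ⟨_, _, rfl⟩
  · rw [← hZ]
    rintro _ ⟨z, w, rfl⟩
    refine ⟨⟨((0, c, 0), z), m20 z⟩, ⟨((0, c, 0), w), m20 w⟩, ?_⟩
    show max (max |(0 : ℝ) - 0| (max |c - c| |(0 : ℝ) - 0|)) (dist z w) = dist z w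
    rw [sub_self, sub_self, abs_zero, max_self, max_self]
    exact max_eq_right dist_nonneg

end

/-! ## At most two nonzero distances -/

/-- the data of the functor without marked points -/
def DE (T : Type) [MetricSpace T] : Dat T where
  L := ∅
  a := 1
  b := 0
  ha := one_pos
  hb := le_rfl
  hL := fun _ h => h.elim

/-- the functor is the product with `T` -/
def DE.iso (X T : Type) [MetricSpace X] [MetricSpace T] : W X (DE T) ≃ᵢ X × T where
  toEquiv := W.eqv _
  isometry_toFun := Isometry.of_dist_eq fun p q => by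
    show dist p.pr q.pr = wd (DE T) p.pr q.pr
    have h : ¬ Cd (DE T) p.pr q.pr := fun h => h.1.elim
    rw [wd_neg h]

lemma distK {s : ℝ} (hs : 0 < s) (x y : K s) : dist x y = 0 ∨ dist x y = s := by
  obtain ⟨i, rfl⟩ := (kb_bij hs).2 x
  obtain ⟨j, rfl⟩ := (kb_bij hs).2 y
  rw [dist_kb hs]
  split_ifs <;> simp

lemma distSet_KK {a b : ℝ} (ha : 0 < a) (hb : 0 < b) :
    distSet (K b × K a) = {0, a, b} := by
  apply Subset.antisymm
  · rintro _ ⟨p, q, rfl⟩
    show max (dist p.1 q.1) (dist p.2 q.2) ∈ _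
    refine max_mem ?_ ?_
    · rcases distK hb p.1 q.1 with h | h <;> rw [h] <;> simp
    · rcases distK ha p.2 q.2 with h | h <;> rw [h] <;> simp
  · rintro r (rfl | rfl | rfl)
    · exact ⟨(kb _ true, kb _ true), (kb _ true, kb _ true), dist_self _⟩
    · refine ⟨(kb _ true, kb _ true), (kb _ true, kb _ false), ?_⟩
      show max (dist _ _) (dist _ _) = _
      rw [dist_kb hb, dist_kb ha]
      simp [ha.le]
    · refine ⟨(kb _ true, kb _ true), (kb _ false, kb _ true), ?_⟩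
      show max (dist _ _) (dist _ _) = _
      rw [dist_kb hb, dist_kb ha]
      simp [hb.le]

/-- **The parameters.** -/
theorem exists_dat (Z : Type) [MetricSpace Z] [CompleteSpace Z] [SeparableSpace Z]
    (hA : ∃ a ∈ distSet Z, a ≠ 0) :
    ∃ (T : Type) (_ : MetricSpace T) (D : Dat T), CompleteSpace T ∧ SeparableSpace T ∧
      Nonempty T ∧ distSet T = distSet Z ∧ D.b ∈ distSet Z ∧
      ∀ (X Y : Type) [MetricSpace X] [MetricSpace Y], Nonempty (W X D ≃ᵢ W Y D) →
        Nonempty (X ≃ᵢ Y) := by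
  classical
  obtain ⟨a0, ha0, ha0'⟩ := hA
  have hpos : ∀ r ∈ distSet Z, r ≠ 0 → 0 < r := by
    rintro _ ⟨x, y, rfl⟩ h
    exact lt_of_le_of_ne dist_nonneg (Ne.symm h)
  obtain ⟨z0, z1, hz⟩ := id ha0
  have h0 : (0 : ℝ) ∈ distSet Z := ⟨z0, z0, dist_self _⟩
  by_cases h3 : ∃ a ∈ distSet Z, ∃ b ∈ distSet Z, ∃ c ∈ distSet Z, 0 < a ∧ a < b ∧ b < c
  · obtain ⟨a, hA, b, hB, c, hC, ha, hab, hbc⟩ := h3
    have : SecondCountableTopology Z := UniformSpace.secondCountable_of_separable Z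
    refine ⟨T3s a b c z0, inferInstance, D3 a b c z0 ha hab, ?_, inferInstance, ?_, ?_, hB, ?_⟩
    · exact T3_closed.completeSpace_coe
    · exact ⟨⟨_, m1⟩⟩
    · exact distSet_T3 rfl hA hB hC ha (ha.trans hab) (ha.trans (hab.trans hbc))
    · rintro X Y _ _ ⟨e⟩
      exact decode (ok3 ha hab hbc) e
  · -- at most two nonzero distances
    have h2 : ∃ a ∈ distSet Z, ∃ b ∈ distSet Z, 0 < a ∧ 0 < b ∧ distSet Z = {0, a, b} := by
      have ha0p := hpos a0 ha0 ha0'
      by_cases h : ∃ b0 ∈ distSet Z, b0 ≠ 0 ∧ b0 ≠ a0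
      · obtain ⟨b0, hb0, hb0', hb1⟩ := h
        have hb0p := hpos b0 hb0 hb0'
        refine ⟨a0, ha0, b0, hb0, ha0p, hb0p, ?_⟩
        apply Subset.antisymm
        · intro r hr
          by_contra hr2
          simp only [mem_insert_iff, mem_singleton_iff, not_or] at hr2
          obtain ⟨hr0, hra, hrb⟩ := hr2
          have hrp := hpos r hr hr0
          apply h3
          rcases lt_or_gt_of_ne hra with h1 | h1 <;> rcases lt_or_gt_of_ne hrb with h2 | h2 <;>
            rcases lt_or_gt_of_ne hb1 with h4 | h4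
          · exact ⟨r, hr, b0, hb0, a0, ha0, hrp, h2, h4⟩
          · exact ⟨r, hr, a0, ha0, b0, hb0, hrp, h1, h4⟩
          · exact ⟨b0, hb0, r, hr, a0, ha0, hb0p, h2, h1⟩
          · exact absurd (h1.trans h4) (not_lt.2 h2.le)
          · exact absurd (h2.trans h4) (not_lt.2 h1.le)
          · exact ⟨a0, ha0, r, hr, b0, hb0, ha0p, h1, h2⟩
          · exact ⟨b0, hb0, a0, ha0, r, hr, hb0p, h4, h1⟩
          · exact ⟨a0, ha0, b0, hb0, r, hr, ha0p, h4, h2⟩
        · rintro r (rfl | rfl | rfl)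
          · exact h0
          · exact ha0
          · exact hb0
      · push Not at h
        refine ⟨a0, ha0, a0, ha0, ha0p, ha0p, ?_⟩
        apply Subset.antisymm
        · intro r hr
          by_cases hr0 : r = 0
          · simp [hr0]
          · simp [h r hr hr0]
        · rintro r (rfl | rfl | rfl)
          · exact h0
          · exact ha0
          · exact ha0
    obtain ⟨a, hA, b, hB, ha, hb, hZ⟩ := h2
    have hc : ∀ s : ℝ, CompleteSpace (K s) := fun s =>
      (Set.Finite.isClosed (Set.toFinite ({0, s} : Set ℝ))).completeSpace_coe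
    have hca := hc a
    have hcb := hc b
    refine ⟨K b × K a, inferInstance, DE _, inferInstance, inferInstance,
      ⟨(kb _ true, kb _ true)⟩, ?_, h0, ?_⟩
    · rw [hZ]; exact distSet_KK ha hb
    · rintro X Y _ _ ⟨e⟩
      exact cancelKK ha hb (((DE.iso X _).symm.trans e).trans (DE.iso Y _))

end Pool.Agent.H660.PD
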