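import Pool.Agent.H660.PD.Functor

set_option autoImplicit false

/-!
# Reconstruction of the space from its image under the functor
-/

namespace Pool.Agent.H660.PD

open Set TopologicalSpace Filter Topology

section
variable {X Y T : Type} [MetricSpace X] [MetricSpace Y] [MetricSpace T]

/-- The component of the point for steps less than `b` is its component for steps less than
`a`. -/
def Mk (a b : ℝ) (p : X) : Prop := ∀ q, Ch b p q → Ch a p q

lemma mk_iso {a b : ℝ} (e : X ≃ᵢ Y) (p : X) : Mk a b (e p) ↔ Mk a b p := by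
  constructor
  · intro h q hq
    exact (ch_iso e p q).1 (h (e q) ((ch_iso e p q).2 hq))
  · intro h q hq
    have h1 := (ch_iso e p (e.symm q)).1 (by simpa using hq)
    have h2 := (ch_iso e p (e.symm q)).2 (h _ h1)
    simpa using h2

/-- The bottom level. -/
def Lo (a b : ℝ) (p : X) : Prop := ¬ Mk a b p ∧ ∃ q, Mk a b q ∧ dist p q = b

lemma lo_iso {a b : ℝ} (e : X ≃ᵢ Y) (p : X) : Lo a b (e p) ↔ Lo a b p := by
  unfold Lo
  rw [mk_iso]
  refine and_congr_right fun _ => ?_
  constructor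
  · rintro ⟨q, hq, hq2⟩
    refine ⟨e.symm q, (mk_iso e _).1 (by simpa using hq), ?_⟩
    rw [← e.isometry.dist_eq, e.apply_symm_apply]
    exact hq2
  · rintro ⟨q, hq, hq2⟩
    exact ⟨e q, (mk_iso e _).2 hq, by rw [e.isometry.dist_eq]; exact hq2⟩

/-- what is needed of `T` -/
structure Ok (D : Dat T) (t1 t0 t0' : T) : Prop where
  h1 : ∀ t, t ∉ D.L → ∃ t', dist t t' < D.b ∧ ¬ Ch D.a t t'
  h2 : ∀ t, t ∈ D.L ↔ t = t1
  h3 : dist t0 t0' = D.a
  h4 : dist t0 t1 = D.b
  h5 : dist t0' t1 = D.b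
  h6 : ∀ t, dist t t1 = D.b → t = t0 ∨ t = t0'
  h7 : 0 < D.b

lemma snd_ch {D : Dat T} {r : ℝ} {p q : W X D} (h : Ch r p q) : Ch r p.snd q.snd := by
  induction h with
  | refl => exact Ch.refl _
  | tail _ h ih =>
    rename_i y z _
    refine ih.trans (ch_of_lt (lt_of_le_of_lt ?_ h))
    exact (le_max_right _ _).trans (le_wd D y.pr z.pr)

lemma mk_fst {D : Dat T} {t : T} {x y : X} (h : Ch D.a x y) :
    Ch D.a (⟨x, t⟩ : W X D) ⟨y, t⟩ := by
  induction h with
  | refl => exact Ch.refl _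
  | tail _ h ih =>
    rename_i y z _
    refine ih.trans (ch_of_lt ?_)
    show wd D (y, t) (z, t) < D.a
    have h1 : dist (y, t) (z, t) = dist y z := by
      show max (dist y z) (dist t t) = dist y z
      rw [dist_self]
      exact max_eq_left dist_nonneg
    rw [wd_eq D (by rw [h1]; exact h), h1]
    exact h

variable {D : Dat T} {t1 t0 t0' : T}

lemma mk_of_not (hD : Ok D t1 t0 t0') (p : W X D) (hp : p.snd ∉ D.L) : ¬ Mk D.a D.b p := by
  intro h
  obtain ⟨t', ht, ht2⟩ := hD.h1 _ hp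
  refine ht2 (snd_ch (h ⟨p.fst, t'⟩ (ch_of_lt ?_)))
  show wd D (p.fst, p.snd) (p.fst, t') < D.b
  have h1 : ¬ Cd D (p.fst, p.snd) (p.fst, t') := fun h => h.2.2 (Ch.refl _)
  rw [wd_neg h1]
  show max (dist p.fst p.fst) (dist p.snd t') < D.b
  rw [dist_self]
  exact max_lt hD.h7 ht

lemma mk_of_mem (hD : Ok D t1 t0 t0') (p : W X D) (hp : p.snd ∈ D.L) : Mk D.a D.b p := by
  intro q hq
  have key : q.snd = t1 ∧ Ch D.a p.fst q.fst := by
    induction hq with
    | refl => exact ⟨(hD.h2 _).1 hp, Ch.refl _⟩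
    | tail _ h ih =>
      rename_i y z _
      have hy : y.snd ∈ D.L := (hD.h2 _).2 ih.1
      have hz : z.snd ∈ D.L := by
        by_contra hz
        have h1 := D.hL _ hy _ hz
        have h2 : dist y.snd z.snd ≤ dist y z := (le_max_right _ _).trans (le_wd D y.pr z.pr)
        exact absurd h (not_lt.2 (h1.trans h2))
      refine ⟨(hD.h2 _).1 hz, ih.2.trans ?_⟩
      by_contra hc
      have h1 : th D y.pr z.pr = D.b := th_pos ⟨hy, hz, hc⟩
      have h2 := th_le_wd D y.pr z.pr
      rw [h1] at h2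
      exact absurd h (not_lt.2 h2)
  have h1 : p.snd = t1 := (hD.h2 _).1 hp
  have h2 : q.snd = p.snd := by rw [h1]; exact key.1
  have h3 := mk_fst (D := D) (t := p.snd) key.2
  have h4 : (⟨q.fst, p.snd⟩ : W X D) = q := W.ext rfl h2.symm
  rw [h4] at h3
  exact h3

lemma mk_iff (hD : Ok D t1 t0 t0') (p : W X D) : Mk D.a D.b p ↔ p.snd = t1 := by
  rw [← hD.h2]
  constructor
  · intro h
    by_contra hp
    exact mk_of_not hD p hp h
  · exact mk_of_mem hD p

lemma t0_notMem (hD : Ok D t1 t0 t0') : t0 ∉ D.L := by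
  intro h
  have h1 := hD.h4
  rw [(hD.h2 _).1 h, dist_self] at h1
  have := hD.h7
  linarith

lemma t0'_notMem (hD : Ok D t1 t0 t0') : t0' ∉ D.L := by
  intro h
  have h1 := hD.h5
  rw [(hD.h2 _).1 h, dist_self] at h1
  have := hD.h7
  linarith

lemma lo_iff (hD : Ok D t1 t0 t0') (p : W X D) :
    Lo D.a D.b p ↔ p.snd = t0 ∨ p.snd = t0' := by
  constructor
  · rintro ⟨h1, q, hq, hpq⟩
    rw [mk_iff hD] at hq h1
    have h2 : p.snd ∉ D.L := fun h => h1 ((hD.h2 _).1 h)
    refine hD.h6 _ (le_antisymm ?_ ?_)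
    · rw [← hpq, ← hq]
      exact (le_max_right _ _).trans (le_wd D p.pr q.pr)
    · rw [dist_comm]
      exact D.hL t1 ((hD.h2 _).2 rfl) _ h2
  · intro h
    have h1 : p.snd ∉ D.L := by
      rcases h with h | h <;> rw [h]
      · exact t0_notMem hD
      · exact t0'_notMem hD
    have h2 : dist p.snd t1 = D.b := by
      rcases h with h | h <;> rw [h]
      · exact hD.h4
      · exact hD.h5
    refine ⟨mk_of_not hD p h1, ⟨p.fst, t1⟩, (mk_iff hD _).2 rfl, ?_⟩
    show wd D (p.fst, p.snd) (p.fst, t1) = D.b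
    have h3 : ¬ Cd D (p.fst, p.snd) (p.fst, t1) := fun h => h.2.2 (Ch.refl _)
    rw [wd_neg h3]
    show max (dist p.fst p.fst) (dist p.snd t1) = D.b
    rw [dist_self, h2]
    exact max_eq_right hD.h7.le

/-- the embedding of the bottom level -/
def io (D : Dat T) (t0 t0' : T) (p : X × Bool) : W X D := ⟨p.1, if p.2 then t0 else t0'⟩

lemma dist_io (hD : Ok D t1 t0 t0') (p q : X × Bool) :
    dist (io D t0 t0' p) (io D t0 t0' q) = D0 D.a p q := by
  obtain ⟨x, i⟩ := p
  obtain ⟨y, j⟩ := q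
  show wd D (x, if i then t0 else t0') (y, if j then t0 else t0') = _
  have h : ¬ Cd D (x, if i then t0 else t0') (y, if j then t0 else t0') := by
    intro h
    have h1 := h.1
    cases i
    · exact t0'_notMem hD h1
    · exact t0_notMem hD h1
  rw [wd_neg h]
  show max (dist x y) (dist (if i then t0 else t0') (if j then t0 else t0')) =
    max (dist x y) (if i = j then 0 else D.a)
  congr 1
  cases i <;> cases j
  · simp
  · simpa [dist_comm] using hD.h3
  · simpa using hD.h3
  · simp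

lemma io_inj (hD : Ok D t1 t0 t0') : Function.Injective (io (X := X) D t0 t0') := by
  intro p q h
  have h1 : D0 D.a p q = 0 := by rw [← dist_io hD, h, dist_self]
  unfold D0 at h1
  have h2 : dist p.1 q.1 ≤ 0 := (le_max_left _ _).trans h1.le
  have h3 : p.1 = q.1 := eq_of_dist_eq_zero (le_antisymm h2 dist_nonneg)
  have h4 : p.2 = q.2 := by
    by_contra h4
    rw [if_neg h4] at h1
    have h5 : D.a ≤ 0 := (le_max_right (dist p.1 q.1) _).trans h1.le
    exact absurd D.ha (not_lt.2 h5)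
  exact Prod.ext h3 h4

lemma range_io (hD : Ok D t1 t0 t0') (p : W X D) :
    p ∈ range (io (X := X) D t0 t0') ↔ Lo D.a D.b p := by
  rw [lo_iff hD]
  constructor
  · rintro ⟨⟨x, i⟩, rfl⟩
    cases i
    · exact Or.inr rfl
    · exact Or.inl rfl
  · rintro (h | h)
    · exact ⟨(p.fst, true), W.ext rfl h.symm⟩
    · exact ⟨(p.fst, false), W.ext rfl h.symm⟩

/-- **Reconstruction.** -/
theorem decode (hD : Ok D t1 t0 t0') (e : W X D ≃ᵢ W Y D) : Nonempty (X ≃ᵢ Y) := by
  have hmem : ∀ p, p ∈ range (io (X := X) D t0 t0') ↔ e p ∈ range (io (X := Y) D t0 t0') := by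
    intro p
    rw [range_io hD, range_io hD, lo_iso]
  let E : X × Bool ≃ Y × Bool := (Equiv.ofInjective _ (io_inj (X := X) hD)).trans
    ((e.toEquiv.subtypeEquiv hmem).trans (Equiv.ofInjective _ (io_inj (X := Y) hD)).symm)
  have hE : ∀ p, io D t0 t0' (E p) = e (io D t0 t0' p) := by
    intro p
    exact Equiv.apply_ofInjective_symm (io_inj (X := Y) hD) _
  refine cancel D.ha E fun p q => ?_
  rw [← dist_io hD, ← dist_io hD, hE, hE, e.isometry.dist_eq]

end

/-! ## Two point spaces -/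

/-- The two point space with distance `s`. -/
abbrev K (s : ℝ) : Type := ↥({0, s} : Set ℝ)

section
variable {X Y : Type} [MetricSpace X] [MetricSpace Y]

lemma K_cases {s : ℝ} (t : K s) : t.1 = 0 ∨ t.1 = s := t.2

/-- the embedding of `Bool` -/
noncomputable def kb (s : ℝ) (i : Bool) : K s := if i then ⟨0, Or.inl rfl⟩ else ⟨s, Or.inr rfl⟩

lemma kb_bij {s : ℝ} (hs : 0 < s) : Function.Bijective (kb s) := by
  constructor
  · intro i j h
    cases i <;> cases j
    · rfl
    · exfalso
      have := congrArg Subtype.val h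
      simp [kb] at this
      linarith
    · exfalso
      have := congrArg Subtype.val h
      simp [kb] at this
      linarith
    · rfl
  · rintro ⟨t, ht⟩
    rcases ht with rfl | ht
    · exact ⟨true, rfl⟩
    · refine ⟨false, Subtype.ext ?_⟩
      exact ht.symm

lemma dist_kb {s : ℝ} (hs : 0 < s) (i j : Bool) : dist (kb s i) (kb s j) = if i = j then 0 else s := by
  rw [Subtype.dist_eq]
  cases i <;> cases j <;> simp [kb, Real.dist_eq, abs_of_pos hs]

/-- Cancellation of a two point factor. -/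
theorem cancelK {s : ℝ} (hs : 0 < s) (e : X × K s ≃ᵢ Y × K s) : Nonempty (X ≃ᵢ Y) := by
  let β : Bool ≃ K s := Equiv.ofBijective _ (kb_bij hs)
  let E : X × Bool ≃ Y × Bool := ((Equiv.refl X).prodCongr β).trans
    (e.toEquiv.trans ((Equiv.refl Y).prodCongr β).symm)
  have hd : ∀ (Z : Type) [MetricSpace Z] (p q : Z × Bool),
      dist ((Equiv.refl Z).prodCongr β p) ((Equiv.refl Z).prodCongr β q) = D0 s p q := by
    intro Z _ p q
    show max (dist p.1 q.1) (dist (kb s p.2) (kb s q.2)) = _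
    rw [dist_kb hs]
    rfl
  refine cancel hs E fun p q => ?_
  rw [← hd, ← hd]
  simp only [E, Equiv.trans_apply, Equiv.apply_symm_apply]
  exact e.isometry.dist_eq _ _

/-- association of products -/
def assocI (A B C : Type) [MetricSpace A] [MetricSpace B] [MetricSpace C] :
    (A × B) × C ≃ᵢ A × (B × C) where
  toEquiv := Equiv.prodAssoc A B C
  isometry_toFun := Isometry.of_dist_eq fun p q => by
    show max (dist p.1.1 q.1.1) (max (dist p.1.2 q.1.2) (dist p.2 q.2)) =
      max (max (dist p.1.1 q.1.1) (dist p.1.2 q.1.2)) (dist p.2 q.2)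
    rw [max_assoc]

theorem cancelKK {a b : ℝ} (ha : 0 < a) (hb : 0 < b)
    (e : X × (K b × K a) ≃ᵢ Y × (K b × K a)) : Nonempty (X ≃ᵢ Y) := by
  obtain ⟨e1⟩ := cancelK ha (((assocI X (K b) (K a)).trans e).trans (assocI Y (K b) (K a)).symm)
  exact cancelK hb e1

end

end Pool.Agent.H660.PD
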