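import Mathlib

/-!
# Definitions: isometry of Polish metric spaces with prescribed distances
-/

namespace Pool.Agent.H660.PD

open Set TopologicalSpace

/-- The distance set `D(X)` of a metric space `X`. -/
def distSet (X : Type) [MetricSpace X] : Set ℝ := {r | ∃ x y : X, dist x y = r}

/-- `A ∈ 𝒟`: `A` is the distance set of a Polish (complete separable) metric space. -/
def IsPolishDistSet (A : Set ℝ) : Prop :=
  ∃ (X : Type) (_ : MetricSpace X), CompleteSpace X ∧ SeparableSpace X ∧ distSet X = A

/-- `F(U)`: the nonempty closed subsets of `U`. -/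
structure FU (U : Type) [TopologicalSpace U] : Type where
  /-- the closed set -/
  carrier : Set U
  isClosed : IsClosed carrier
  nonempty : carrier.Nonempty

/-- The Effros Borel structure on `F(U)`, generated by the sets of all nonempty closed sets which
meet a given open set. -/
instance effrosFU (U : Type) [TopologicalSpace U] : MeasurableSpace (FU U) :=
  MeasurableSpace.generateFrom
    {S | ∃ V : Set U, IsOpen V ∧ S = {F : FU U | (F.carrier ∩ V).Nonempty}}

/-- `𝓥_A = {X ∈ F(U) : D(X) ⊆ A}`, with the Borel structure inherited from `F(U)`. -/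
abbrev VA (U : Type) [MetricSpace U] (A : Set ℝ) : Type :=
  {F : FU U // distSet F.carrier ⊆ A}

/-- `𝓥*_A = {X ∈ F(U) : D(X) = A}`, with the Borel structure inherited from `F(U)`. -/
abbrev VAstar (U : Type) [MetricSpace U] (A : Set ℝ) : Type :=
  {F : FU U // distSet F.carrier = A}

/-- The isometry relation `≅_A` on `𝓥_A`. -/
def IsoA (U : Type) [MetricSpace U] (A : Set ℝ) (F G : VA U A) : Prop :=
  Nonempty (F.1.carrier ≃ᵢ G.1.carrier)

/-- The isometry relation `≅*_A` on `𝓥*_A`. -/
def IsoAstar (U : Type) [MetricSpace U] (A : Set ℝ) (F G : VAstar U A) : Prop :=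
  Nonempty (F.1.carrier ≃ᵢ G.1.carrier)

/-- Borel reducibility `R ≤_B S`. -/
def BorelReducible {X Y : Type} [MeasurableSpace X] [MeasurableSpace Y] (R : X → X → Prop)
    (S : Y → Y → Prop) : Prop :=
  ∃ f : X → Y, Measurable f ∧ ∀ x x', R x x' ↔ S (f x) (f x')

/-- Borel bireducibility `R ∼_B S`. -/
def BorelBireducible {X Y : Type} [MeasurableSpace X] [MeasurableSpace Y] (R : X → X → Prop)
    (S : Y → Y → Prop) : Prop :=
  BorelReducible R S ∧ BorelReducible S R

end Pool.Agent.H660.PD
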