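import Pool.Agent.H660.PD.Cancel
import Pool.Agent.H660.PD.Defs

set_option autoImplicit false

/-!
# The functor

For a metric space `T` with a subset `L` the functor sends a metric space `X` to `X × T`, where two
points over `L` whose first coordinates are not joined by a chain with steps less than `a` are
moved to distance at least `b`.
-/

namespace Pool.Agent.H660.PD

open Set TopologicalSpace Filter Topology

/-- Data for the functor. -/
structure Dat (T : Type) [MetricSpace T] where
  /-- the marked set -/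
  L : Set T
  /-- the small distance -/
  a : ℝ
  /-- the large distance -/
  b : ℝ
  ha : 0 < a
  hb : 0 ≤ b
  hL : ∀ t ∈ L, ∀ s, s ∉ L → b ≤ dist t s

section
variable {X Y T : Type} [MetricSpace X] [MetricSpace Y] [MetricSpace T]

/-- the condition for the third term -/
def Cd (D : Dat T) (p q : X × T) : Prop := p.2 ∈ D.L ∧ q.2 ∈ D.L ∧ ¬ Ch D.a p.1 q.1

open Classical in
/-- the third term -/
noncomputable def th (D : Dat T) (p q : X × T) : ℝ := if Cd D p q then D.b else 0

lemma th_pos {D : Dat T} {p q : X × T} (h : Cd D p q) : th D p q = D.b := if_pos h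

lemma th_neg {D : Dat T} {p q : X × T} (h : ¬ Cd D p q) : th D p q = 0 := if_neg h

lemma th_nonneg (D : Dat T) (p q : X × T) : 0 ≤ th D p q := by
  by_cases h : Cd D p q
  · rw [th_pos h]; exact D.hb
  · rw [th_neg h]

lemma th_self (D : Dat T) (p : X × T) : th D p p = 0 :=
  th_neg fun h => h.2.2 (Ch.refl _)

lemma cd_comm {D : Dat T} {p q : X × T} (h : Cd D p q) : Cd D q p :=
  ⟨h.2.1, h.1, fun h' => h.2.2 h'.symm⟩

lemma th_comm (D : Dat T) (p q : X × T) : th D p q = th D q p := by
  by_cases h : Cd D p q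
  · rw [th_pos h, th_pos (cd_comm h)]
  · rw [th_neg h, th_neg fun h' => h (cd_comm h')]

/-- the distance of the functor -/
noncomputable def wd (D : Dat T) (p q : X × T) : ℝ := max (dist p q) (th D p q)

lemma wd_comm (D : Dat T) (p q : X × T) : wd D p q = wd D q p := by
  unfold wd
  rw [dist_comm, th_comm]

lemma le_wd (D : Dat T) (p q : X × T) : dist p q ≤ wd D p q := le_max_left _ _

lemma th_le_wd (D : Dat T) (p q : X × T) : th D p q ≤ wd D p q := le_max_right _ _

lemma wd_nonneg (D : Dat T) (p q : X × T) : 0 ≤ wd D p q := dist_nonneg.trans (le_wd D p q)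

lemma wd_self (D : Dat T) (p : X × T) : wd D p p = 0 := by
  unfold wd
  rw [dist_self, th_self, max_self]

lemma wd_neg {D : Dat T} {p q : X × T} (h : ¬ Cd D p q) : wd D p q = dist p q := by
  unfold wd
  rw [th_neg h]
  exact max_eq_left dist_nonneg

lemma wd_eq (D : Dat T) {p q : X × T} (h : dist p q < D.a) : wd D p q = dist p q := by
  refine wd_neg fun h' => h'.2.2 (ch_of_lt (lt_of_le_of_lt ?_ h))
  exact le_max_left _ _

lemma wd_tri (D : Dat T) (p q r : X × T) : wd D p r ≤ wd D p q + wd D q r := by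
  refine max_le ?_ ?_
  · have := dist_triangle p q r
    have h1 := le_wd D p q
    have h2 := le_wd D q r
    linarith
  · by_cases h : Cd D p r
    · rw [th_pos h]
      have hpq := wd_nonneg D p q
      have hqr := wd_nonneg D q r
      by_cases hq : q.2 ∈ D.L
      · by_cases h1 : Ch D.a p.1 q.1
        · have h2 : ¬ Ch D.a q.1 r.1 := fun h2 => h.2.2 (h1.trans h2)
          have h3 : th D q r = D.b := th_pos ⟨hq, h.2.1, h2⟩
          have h4 := th_le_wd D q r
          linarith
        · have h3 : th D p q = D.b := th_pos ⟨h.1, hq, h1⟩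
          have h4 := th_le_wd D p q
          linarith
      · have h1 := D.hL p.2 h.1 q.2 hq
        have h2 : dist p.2 q.2 ≤ dist p q := le_max_right _ _
        have h3 := le_wd D p q
        linarith
    · rw [th_neg h]
      exact add_nonneg (wd_nonneg D p q) (wd_nonneg D q r)

/-- The space. -/
@[ext]
structure W (X : Type) [MetricSpace X] {T : Type} [MetricSpace T] (D : Dat T) : Type where
  /-- the first coordinate -/
  fst : X
  /-- the second coordinate -/
  snd : T

/-- the underlying pair -/
def W.pr {D : Dat T} (p : W X D) : X × T := (p.fst, p.snd)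

noncomputable instance (D : Dat T) : MetricSpace (W X D) where
  dist p q := wd D p.pr q.pr
  dist_self p := wd_self D p.pr
  dist_comm p q := wd_comm D p.pr q.pr
  dist_triangle p q r := wd_tri D p.pr q.pr r.pr
  eq_of_dist_eq_zero := by
    intro p q h
    have h1 : dist p.pr q.pr ≤ 0 := (le_wd D p.pr q.pr).trans (le_of_eq h)
    have h2 : p.pr = q.pr := eq_of_dist_eq_zero (le_antisymm h1 dist_nonneg)
    exact W.ext (congrArg Prod.fst h2) (congrArg Prod.snd h2)

lemma W.dist_eq {D : Dat T} (p q : W X D) : dist p q = wd D p.pr q.pr := rfl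

/-- The identity map as a bijection. -/
def W.eqv (D : Dat T) : W X D ≃ X × T where
  toFun p := p.pr
  invFun p := ⟨p.1, p.2⟩
  left_inv _ := rfl
  right_inv _ := rfl

/-- The identity map as a uniform equivalence. -/
def W.ueq (D : Dat T) : W X D ≃ᵤ X × T where
  toEquiv := W.eqv D
  uniformContinuous_toFun := by
    refine Metric.uniformContinuous_iff.2 ?_
    intro ε hε
    exact ⟨ε, hε, fun {p q} h => lt_of_le_of_lt (le_wd D p.pr q.pr) h⟩
  uniformContinuous_invFun := by
    refine Metric.uniformContinuous_iff.2 ?_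
    intro ε hε
    refine ⟨min ε D.a, lt_min hε D.ha, fun {p q} h => ?_⟩
    have h1 : wd D p q = dist p q := wd_eq D (lt_of_lt_of_le h (min_le_right _ _))
    show wd D p q < ε
    rw [h1]
    exact lt_of_lt_of_le h (min_le_left _ _)

instance (D : Dat T) [CompleteSpace X] [CompleteSpace T] : CompleteSpace (W X D) :=
  (W.ueq D).completeSpace_iff.2 inferInstance

lemma W.dense (D : Dat T) {ι κ : Type} (s : ι → X) (t : κ → T) (hs : DenseRange s)
    (ht : DenseRange t) : DenseRange fun p : ι × κ => (⟨s p.1, t p.2⟩ : W X D) := by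
  have h1 : DenseRange (Prod.map s t) := hs.prodMap ht
  have h2 := (W.ueq (X := X) D).symm.toHomeomorph.surjective.denseRange.comp h1
    (W.ueq (X := X) D).symm.toHomeomorph.continuous
  exact h2

/-- distances -/
lemma W.distSet_sub (D : Dat T) {A : Set ℝ} (h0 : (0 : ℝ) ∈ A) (hX : distSet X ⊆ A)
    (hT : distSet T ⊆ A) (hb : D.b ∈ A) : distSet (W X D) ⊆ A := by
  rintro _ ⟨p, q, rfl⟩
  have hmax : ∀ {x y : ℝ}, x ∈ A → y ∈ A → max x y ∈ A := fun {x y} hx hy => by
    rcases max_choice x y with h | h <;> rw [h] <;> assumption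
  refine hmax (hmax (hX ⟨_, _, rfl⟩) (hT ⟨_, _, rfl⟩)) ?_
  by_cases h : Cd D p.pr q.pr
  · rw [th_pos h]; exact hb
  · rw [th_neg h]; exact h0

lemma W.sub_distSet (D : Dat T) [hX : Nonempty X] : distSet T ⊆ distSet (W X D) := by
  rintro _ ⟨t, s, rfl⟩
  obtain ⟨x⟩ := hX
  refine ⟨⟨x, t⟩, ⟨x, s⟩, ?_⟩
  show wd D (x, t) (x, s) = _
  have h : ¬ Cd D (x, t) (x, s) := fun h => h.2.2 (Ch.refl _)
  rw [wd_neg h]
  show max (dist x x) (dist t s) = dist t s
  rw [dist_self]
  exact max_eq_right dist_nonneg

lemma ch_map {r : ℝ} (f : X → Y) (hf : ∀ x y, dist (f x) (f y) = dist x y) {x y : X}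
    (h : Ch r x y) : Ch r (f x) (f y) := by
  induction h with
  | refl => exact Ch.refl _
  | tail _ h ih => exact ih.trans (ch_of_lt (by rw [hf]; exact h))

lemma ch_iso {r : ℝ} (e : X ≃ᵢ Y) (x y : X) : Ch r (e x) (e y) ↔ Ch r x y := by
  constructor
  · intro h
    have h1 := ch_map e.symm (fun x y => e.symm.isometry.dist_eq x y) h
    simpa using h1
  · exact ch_map e (fun x y => e.isometry.dist_eq x y)

/-- Functoriality. -/
def W.map (D : Dat T) (e : X ≃ᵢ Y) : W X D ≃ᵢ W Y D where
  toFun p := ⟨e p.fst, p.snd⟩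
  invFun p := ⟨e.symm p.fst, p.snd⟩
  left_inv p := by
    refine W.ext ?_ rfl
    exact e.symm_apply_apply _
  right_inv p := by
    refine W.ext ?_ rfl
    exact e.apply_symm_apply _
  isometry_toFun := by
    refine Isometry.of_dist_eq fun p q => ?_
    show wd D (e p.fst, p.snd) (e q.fst, q.snd) = wd D (p.fst, p.snd) (q.fst, q.snd)
    have h1 : dist (e p.fst, p.snd) (e q.fst, q.snd) = dist (p.fst, p.snd) (q.fst, q.snd) := by
      show max (dist (e p.fst) (e q.fst)) _ = max _ _
      rw [e.isometry.dist_eq]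
    have h2 : Cd D (e p.fst, p.snd) (e q.fst, q.snd) ↔ Cd D (p.fst, p.snd) (q.fst, q.snd) := by
      unfold Cd
      simp only [ch_iso]
    unfold wd
    rw [h1]
    by_cases h : Cd D (p.fst, p.snd) (q.fst, q.snd)
    · rw [th_pos h, th_pos (h2.2 h)]
    · rw [th_neg h, th_neg fun h' => h (h2.1 h')]

end

end Pool.Agent.H660.PD
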