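import Pool.Agent.H660.PD.Reduce

set_option autoImplicit false

/-!
# The reductions
-/

namespace Pool.Agent.H660.PD

open Set TopologicalSpace Filter Topology Pool.Agent.H655.UR

lemma distSet_iso {X Y : Type} [MetricSpace X] [MetricSpace Y] (e : X ≃ᵢ Y) :
    distSet X = distSet Y := by
  apply Subset.antisymm
  · rintro _ ⟨x, y, rfl⟩
    exact ⟨e x, e y, e.isometry.dist_eq x y⟩
  · rintro _ ⟨x, y, rfl⟩
    exact ⟨e.symm x, e.symm y, e.symm.isometry.dist_eq x y⟩

section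
variable {U : Type} [MetricSpace U]

lemma zero_mem (F : FU U) : (0 : ℝ) ∈ distSet F.carrier := by
  obtain ⟨x, hx⟩ := F.nonempty
  exact ⟨⟨x, hx⟩, ⟨x, hx⟩, dist_self _⟩

/-- The easy reduction. -/
theorem star_le (A : Set ℝ) : BorelReducible (IsoAstar U A) (IsoA U A) :=
  ⟨fun F => ⟨F.1, F.2.subset⟩, Measurable.subtype_mk measurable_subtype_coe,
    fun _ _ => Iff.rfl⟩

/-- The case of the set `{0}`. -/
theorem le_star_zero (A : Set ℝ) (hA : ¬ ∃ a ∈ A, a ≠ 0) :
    BorelReducible (IsoA U A) (IsoAstar U A) := by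
  push Not at hA
  have h : ∀ F : VA U A, distSet F.1.carrier = A := by
    intro F
    refine Subset.antisymm F.2 fun a ha => ?_
    rw [hA a ha]
    exact zero_mem F.1
  exact ⟨fun F => ⟨F.1, h F⟩, Measurable.subtype_mk measurable_subtype_coe, fun _ _ => Iff.rfl⟩

/-- The reduction. -/
theorem le_star [CompleteSpace U] [SeparableSpace U] (hU : ExtP U) (A : Set ℝ)
    (hA : IsPolishDistSet A) : BorelReducible (IsoA U A) (IsoAstar U A) := by
  by_cases h0 : ∃ a ∈ A, a ≠ 0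
  swap
  · exact le_star_zero A h0
  obtain ⟨Z, _, hc, hs, rfl⟩ := hA
  obtain ⟨T, _, D, hTc, hTs, hTn, hT, hb, hdec⟩ := exists_dat Z h0
  letI : MeasurableSpace U := borel U
  have : BorelSpace U := ⟨rfl⟩
  obtain ⟨G, hG, hG2⟩ := functor_borel hU D
  have hz : (0 : ℝ) ∈ distSet Z := by
    obtain ⟨_, ⟨z, _, _⟩, _⟩ := h0
    exact ⟨z, z, dist_self _⟩
  have hd : ∀ F : VA U (distSet Z), distSet (G F.1).carrier = distSet Z := by
    intro F
    obtain ⟨e⟩ := hG2 F.1
    have hne : Nonempty F.1.carrier := F.1.nonempty.to_subtype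
    rw [distSet_iso e]
    exact Subset.antisymm (W.distSet_sub D hz F.2 hT.subset hb)
      (hT.symm.subset.trans (W.sub_distSet D))
  refine ⟨fun F => ⟨G F.1, hd F⟩, Measurable.subtype_mk (hG.comp measurable_subtype_coe), ?_⟩
  intro F F'
  obtain ⟨e⟩ := hG2 F.1
  obtain ⟨e'⟩ := hG2 F'.1
  constructor
  · rintro ⟨f⟩
    exact ⟨(e.trans (W.map D f)).trans e'.symm⟩
  · rintro ⟨f⟩
    exact hdec _ _ ⟨(e.symm.trans f).trans e'⟩

end

end Pool.Agent.H660.PD
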