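import Pool.Agent.H660.PD.Sel
import Pool.Agent.H660.PD.Defs
import Pool.Agent.H655.UR.Ury

set_option autoImplicit false

/-!
# Dense sequences chosen in a Borel way, and realisation of metrics in the Urysohn space
-/

namespace Pool.Agent.H660.PD

open Set TopologicalSpace Filter Topology Pool.Agent.H655.UR

lemma meas_hit {U : Type} [TopologicalSpace U] {V : Set U} (hV : IsOpen V) :
    MeasurableSet {F : FU U | (F.1 ∩ V).Nonempty} :=
  MeasurableSpace.measurableSet_generateFrom ⟨V, hV, rfl⟩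

section
variable {U : Type} [MetricSpace U] [CompleteSpace U] [SeparableSpace U] [MeasurableSpace U]
  [BorelSpace U]

/-- Closed sets have dense sequences which depend on them in a Borel way. -/
theorem castaing : ∃ s : ℕ → FU U → U, (∀ n, Measurable (s n)) ∧ (∀ n F, s n F ∈ F.1) ∧
    ∀ F : FU U, ∀ x ∈ F.1, ∀ ε : ℝ, 0 < ε → ∃ n, dist x (s n F) < ε := by
  classical
  rcases isEmpty_or_nonempty U with hU | hU
  · have : IsEmpty (FU U) := ⟨fun F => by
      obtain ⟨x, _⟩ := F.3
      exact hU.elim x⟩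
    exact ⟨fun _ F => this.elim F, fun _ => measurable_of_empty _, fun _ F => this.elim F,
      fun F => this.elim F⟩
  let u : ℕ → U := denseSeq U
  have hu : DenseRange u := denseRange_denseSeq U
  let B : ℕ × ℕ → Set U := fun p => Metric.ball (u p.1) ((1 / 2) ^ p.2)
  have hB : ∀ p, IsOpen (B p) := fun p => Metric.isOpen_ball
  let Φ : ℕ × ℕ → FU U → Set U := fun p F =>
    if (F.1 ∩ B p).Nonempty then closure (F.1 ∩ B p) else F.1
  have hsub : ∀ p F, Φ p F ⊆ F.1 := by
    intro p F
    simp only [Φ]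
    split_ifs
    · exact closure_minimal inter_subset_left F.2
    · exact subset_rfl
  have key : ∀ p, ∃ f : FU U → U, Measurable f ∧ ∀ F, f F ∈ Φ p F := by
    intro p
    refine selection (Φ p) ?_ ?_ ?_
    · intro F
      simp only [Φ]
      split_ifs
      · exact isClosed_closure
      · exact F.2
    · intro F
      simp only [Φ]
      split_ifs with h
      · exact h.closure
      · exact F.3
    · intro x r
      have h1 : {F : FU U | ∃ y ∈ Φ p F, dist y x < r} =
          ({F : FU U | (F.1 ∩ B p).Nonempty} ∩ {F : FU U | (F.1 ∩ (B p ∩ Metric.ball x r)).Nonempty}) ∪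
          ({F : FU U | (F.1 ∩ B p).Nonempty}ᶜ ∩ {F : FU U | (F.1 ∩ Metric.ball x r).Nonempty}) := by
        ext F
        simp only [mem_ofPred_eq, mem_union, mem_inter_iff, mem_compl_iff, Φ]
        by_cases h : (F.1 ∩ B p).Nonempty
        · simp only [h, if_true, true_and, not_true_eq_false, false_and, or_false]
          constructor
          · rintro ⟨y, hy, hy2⟩
            obtain ⟨z, hz, hz2⟩ := mem_closure_iff.1 hy (Metric.ball x r) Metric.isOpen_ball hy2
            exact ⟨z, hz2.1, hz2.2, hz⟩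
          · rintro ⟨z, hz, hz1, hz2⟩
            exact ⟨z, subset_closure ⟨hz, hz1⟩, hz2⟩
        · simp only [h, if_false, false_and, not_false_eq_true, true_and, false_or]
          constructor
          · rintro ⟨y, hy, hy2⟩
            exact ⟨y, hy, hy2⟩
          · rintro ⟨y, hy, hy2⟩
            exact ⟨y, hy, hy2⟩
      rw [h1]
      exact ((meas_hit (hB p)).inter (meas_hit ((hB p).inter Metric.isOpen_ball))).union
        ((meas_hit (hB p)).compl.inter (meas_hit Metric.isOpen_ball))
  choose f hf hf2 using key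
  refine ⟨fun n => f (Nat.unpair n), fun n => hf _, fun n F => hsub _ _ (hf2 _ F), ?_⟩
  intro F x hx ε hε
  obtain ⟨r, hr⟩ := exists_pow_lt_of_lt_one (show 0 < ε / 2 by positivity)
    (show (1 / 2 : ℝ) < 1 by norm_num)
  obtain ⟨k, hk⟩ := hu.exists_dist_lt x (show (0 : ℝ) < (1 / 2) ^ r by positivity)
  refine ⟨Nat.pair k r, ?_⟩
  simp only [Nat.unpair_pair]
  have h1 : (F.1 ∩ B (k, r)).Nonempty := ⟨x, hx, hk⟩
  have h2 := hf2 (k, r) F
  simp only [Φ, h1, if_true] at h2
  have h3 : closure (F.1 ∩ B (k, r)) ⊆ Metric.closedBall (u k) ((1 / 2) ^ r) :=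
    closure_minimal (inter_subset_right.trans Metric.ball_subset_closedBall)
      Metric.isClosed_closedBall
  have h4 : dist (f (k, r) F) (u k) ≤ (1 / 2) ^ r := h3 h2
  have h5 := dist_triangle x (u k) (f (k, r) F)
  rw [dist_comm (u k)] at h5
  linarith

/-! ## Realisation of metrics -/

variable {Ω : Type} [MeasurableSpace Ω]

/-- a family of pseudometrics on `ℕ` -/
structure PMF (δ : Ω → ℕ → ℕ → ℝ) : Prop where
  self : ∀ ω i, δ ω i i = 0
  symm : ∀ ω i j, δ ω i j = δ ω j i
  tri : ∀ ω i j k, δ ω i k ≤ δ ω i j + δ ω j k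

omit [CompleteSpace U] [SeparableSpace U] [MeasurableSpace U] [BorelSpace U] in
/-- points realising given distances close to a given point -/
lemma ext_near (hU : ExtP U) {n : ℕ} (y : Fin n → U) (d : Fin n → ℝ)
    (h1 : ∀ i j, |d i - d j| ≤ dist (y i) (y j)) (h2 : ∀ i j, dist (y i) (y j) ≤ d i + d j)
    (u : U) (r : ℝ) (hr : 0 < r) (h : ∀ i, |dist u (y i) - d i| < r) :
    ∃ z, (∀ i, dist z (y i) = d i) ∧ dist z u < r := by
  rcases Nat.eq_zero_or_pos n with hn | hn
  · subst hn
    exact ⟨u, fun i => i.elim0, by simpa using hr⟩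
  have : Nonempty (Fin n) := ⟨⟨0, hn⟩⟩
  obtain ⟨i0, hi0⟩ := Finite.exists_max fun i => |dist u (y i) - d i|
  set m := |dist u (y i0) - d i0| with hm
  have hm1 : ∀ i, |m - d i| ≤ dist u (y i) := by
    intro i
    have ha := abs_le.1 (h1 i0 i)
    have hb := h2 i0 i
    have hc := dist_triangle u (y i) (y i0)
    have hc' := dist_triangle (y i) u (y i0)
    rw [dist_comm (y i) u] at hc'
    have hd := abs_le.1 (hi0 i)
    have he : dist (y i) (y i0) = dist (y i0) (y i) := dist_comm _ _
    rw [abs_le]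
    constructor
    · linarith
    · rcases abs_cases (dist u (y i0) - d i0) with ⟨h3, _⟩ | ⟨h3, _⟩
      · rw [hm, h3]; linarith
      · rw [hm, h3]; linarith
  have hm2 : ∀ i, dist u (y i) ≤ m + d i := fun i => by
    have hd := abs_le.1 (hi0 i)
    linarith
  obtain ⟨z, hz⟩ := hU ((u, m) :: List.ofFn (fun i => (y i, d i))) (by
    intro p hp q hq
    rw [List.mem_cons, List.mem_ofFn] at hp hq
    rcases hp with rfl | ⟨i, rfl⟩ <;> rcases hq with rfl | ⟨j, rfl⟩
    · have : 0 ≤ m := abs_nonneg _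
      simp only [sub_self, abs_zero, dist_self]
      exact ⟨le_rfl, by linarith⟩
    · exact ⟨hm1 j, hm2 j⟩
    · refine ⟨?_, ?_⟩
      · have := hm1 i
        simp only
        rw [abs_sub_comm, dist_comm]; exact this
      · have := hm2 i
        simp only
        rw [dist_comm, add_comm]; exact this
    · exact ⟨h1 i j, h2 i j⟩)
  refine ⟨z, fun i => ?_, ?_⟩
  · exact hz (y i, d i) (List.mem_cons_of_mem _ (List.mem_ofFn.2 ⟨i, rfl⟩))
  · rw [hz (u, m) List.mem_cons_self]
    exact h i0

/-- One step of the realisation. -/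
lemma step_realise (hU : ExtP U) [Nonempty U] {n : ℕ} (y : Fin n → Ω → U) (d : Fin n → Ω → ℝ)
    (hy : ∀ i, Measurable (y i)) (hd : ∀ i, Measurable (d i))
    (h1 : ∀ i j ω, |d i ω - d j ω| ≤ dist (y i ω) (y j ω))
    (h2 : ∀ i j ω, dist (y i ω) (y j ω) ≤ d i ω + d j ω) :
    ∃ z : Ω → U, Measurable z ∧ ∀ i ω, dist (z ω) (y i ω) = d i ω := by
  have hne : ∀ ω, ∃ z, ∀ i, dist z (y i ω) = d i ω := by
    intro ω
    obtain ⟨z, hz⟩ := hU (List.ofFn (fun i => (y i ω, d i ω))) (by
      intro p hp q hq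
      rw [List.mem_ofFn] at hp hq
      obtain ⟨i, rfl⟩ := hp
      obtain ⟨j, rfl⟩ := hq
      exact ⟨h1 i j ω, h2 i j ω⟩)
    exact ⟨z, fun i => hz (y i ω, d i ω) (List.mem_ofFn.2 ⟨i, rfl⟩)⟩
  obtain ⟨z, hz, hz2⟩ := selection (fun ω => {z : U | ∀ i, dist z (y i ω) = d i ω}) (by
      intro ω
      have : {z : U | ∀ i, dist z (y i ω) = d i ω} = ⋂ i, {z : U | dist z (y i ω) = d i ω} := by
        ext z; simp only [mem_ofPred_eq, mem_iInter]
      rw [this]
      exact isClosed_iInter fun i => isClosed_eq (continuous_id.dist continuous_const)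
        continuous_const) (fun ω => hne ω) (by
      intro u r
      by_cases hr : 0 < r
      · have : {ω | ∃ z ∈ {z : U | ∀ i, dist z (y i ω) = d i ω}, dist z u < r} =
            ⋂ i, {ω | |dist u (y i ω) - d i ω| < r} := by
          ext ω
          simp only [mem_ofPred_eq, mem_iInter]
          constructor
          · rintro ⟨z, hz, hz2⟩ i
            rw [← hz i]
            refine lt_of_le_of_lt (abs_dist_sub_le u z (y i ω)) ?_
            rw [dist_comm]; exact hz2
          · intro h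
            obtain ⟨z, hz, hz2⟩ := ext_near hU (fun i => y i ω) (fun i => d i ω)
              (fun i j => h1 i j ω) (fun i j => h2 i j ω) u r hr h
            exact ⟨z, hz, hz2⟩
        rw [this]
        refine MeasurableSet.iInter fun i => ?_
        refine measurableSet_lt ?_ measurable_const
        exact ((measurable_const.dist (hy i)).sub (hd i)).abs
      · have : {ω | ∃ z ∈ {z : U | ∀ i, dist z (y i ω) = d i ω}, dist z u < r} = ∅ := by
          ext ω
          simp only [mem_ofPred_eq, mem_empty_iff_false, iff_false]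
          rintro ⟨z, _, hz2⟩
          exact hr (lt_of_le_of_lt dist_nonneg hz2)
        rw [this]
        exact MeasurableSet.empty)
  exact ⟨z, hz, fun i ω => hz2 ω i⟩

/-- the recursion -/
noncomputable def recQ {S : Type} (g : ∀ n, (Fin n → S) → S) : ℕ → S
  | n => g n fun i => recQ g i.1
  decreasing_by exact i.2

/-- **Borel realisation of metrics.** -/
theorem realise_seq (hU : ExtP U) [Nonempty U] (δ : Ω → ℕ → ℕ → ℝ) (hδ : PMF δ)
    (hm : ∀ i j, Measurable fun ω => δ ω i j) :
    ∃ Q : ℕ → Ω → U, (∀ n, Measurable (Q n)) ∧ ∀ ω i j, dist (Q i ω) (Q j ω) = δ ω i j := by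
  classical
  let Good : ∀ n, (Fin n → Ω → U) → Prop := fun n y =>
    (∀ i, Measurable (y i)) ∧ ∀ (i j : Fin n) (ω : Ω), dist (y i ω) (y j ω) = δ ω i j
  have hst : ∀ n (y : Fin n → Ω → U), ∃ z : Ω → U, Good n y →
      (Measurable z ∧ ∀ (i : Fin n) (ω : Ω), dist (z ω) (y i ω) = δ ω n i) := by
    intro n y
    by_cases hy : Good n y
    · obtain ⟨z, hz, hz2⟩ := step_realise hU y (fun i ω => δ ω n i) hy.1 (fun i => hm _ _)
        (fun i j ω => by
          rw [hy.2, abs_le]
          have h1 := hδ.tri ω n i j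
          have h2 := hδ.tri ω n j i
          rw [hδ.symm ω j i] at h2
          constructor <;> linarith)
        (fun i j ω => by
          rw [hy.2]
          have h1 := hδ.tri ω i n j
          rw [hδ.symm ω i n] at h1
          exact h1)
      exact ⟨z, fun _ => ⟨hz, hz2⟩⟩
    · exact ⟨fun _ => Classical.arbitrary U, fun h => absurd h hy⟩
  choose g hg using hst
  have hQ : ∀ n, recQ g n = g n fun i => recQ g i.1 := fun n => by
    rw [recQ]
  have hgood : ∀ n, Good n fun i => recQ g i.1 := by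
    intro n
    induction n with
    | zero => exact ⟨fun i => i.elim0, fun i => i.elim0⟩
    | succ n ih =>
      have h1 := hg n _ ih
      rw [← hQ] at h1
      constructor
      · intro i
        rcases Nat.lt_succ_iff_lt_or_eq.1 i.2 with h | h
        · exact ih.1 ⟨i.1, h⟩
        · have : recQ g i.1 = recQ g n := by rw [h]
          show Measurable (recQ g i.1)
          rw [this]; exact h1.1
      · intro i j ω
        show dist (recQ g i.1 ω) (recQ g j.1 ω) = δ ω i.1 j.1
        rcases Nat.lt_succ_iff_lt_or_eq.1 i.2 with h | h <;>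
          rcases Nat.lt_succ_iff_lt_or_eq.1 j.2 with h' | h'
        · exact ih.2 ⟨i.1, h⟩ ⟨j.1, h'⟩ ω
        · rw [h', dist_comm, hδ.symm]
          exact h1.2 ⟨i.1, h⟩ ω
        · rw [h]
          exact h1.2 ⟨j.1, h'⟩ ω
        · rw [h, h', dist_self, hδ.self]
  refine ⟨recQ g, fun n => ?_, fun ω i j => ?_⟩
  · exact (hgood (n + 1)).1 ⟨n, Nat.lt_succ_self n⟩
  · exact (hgood (max i j + 1)).2 ⟨i, by omega⟩ ⟨j, by omega⟩ ω

/-- **Borel realisation of complete metric spaces** as closed subsets of `U`. -/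
theorem realise (hU : ExtP U) [Nonempty U] (δ : Ω → ℕ → ℕ → ℝ) (hδ : PMF δ)
    (hm : ∀ i j, Measurable fun ω => δ ω i j) :
    ∃ G : Ω → FU U, Measurable G ∧ ∀ ω, ∃ v : ℕ → (G ω).1, DenseRange v ∧
      ∀ i j, dist (v i) (v j) = δ ω i j := by
  obtain ⟨Q, hQ, hQ2⟩ := realise_seq hU δ hδ hm
  let G : Ω → FU U := fun ω => ⟨closure (range fun i => Q i ω), isClosed_closure,
    ⟨Q 0 ω, subset_closure ⟨0, rfl⟩⟩⟩
  refine ⟨G, ?_, ?_⟩
  · refine measurable_generateFrom ?_
    rintro _ ⟨V, hV, rfl⟩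
    have : G ⁻¹' {F : FU U | (F.1 ∩ V).Nonempty} = ⋃ i, (Q i) ⁻¹' V := by
      ext ω
      rw [mem_iUnion]
      constructor
      · rintro ⟨x, hx, hxV⟩
        obtain ⟨z, hz, ⟨i, rfl⟩⟩ := mem_closure_iff.1 hx V hV hxV
        exact ⟨i, hz⟩
      · rintro ⟨i, hi⟩
        exact ⟨Q i ω, subset_closure ⟨i, rfl⟩, hi⟩
    rw [this]
    exact MeasurableSet.iUnion fun i => hQ i hV.measurableSet
  · intro ω
    refine ⟨fun i => ⟨Q i ω, subset_closure ⟨i, rfl⟩⟩, ?_, fun i j => hQ2 ω i j⟩
    rw [Metric.denseRange_iff]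
    rintro ⟨x, hx⟩ r hr
    obtain ⟨y, ⟨i, rfl⟩, hy⟩ := Metric.mem_closure_iff.1 hx r hr
    exact ⟨i, hy⟩

end

end Pool.Agent.H660.PD
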