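import Pool.Agent.H660.PD.Cases
import Pool.Agent.H660.PD.Realise

set_option autoImplicit false

/-!
# The functor is Borel
-/

namespace Pool.Agent.H660.PD

open Set TopologicalSpace Filter Topology Pool.Agent.H655.UR

/-- Chains can be taken in a dense sequence. -/
lemma ch_dense {X : Type} [MetricSpace X] {x : ℕ → X} (hx : DenseRange x) {r : ℝ} (hr : 0 < r)
    (i j : ℕ) :
    Ch r (x i) (x j) ↔ Relation.ReflTransGen (fun i j => dist (x i) (x j) < r) i j := by
  constructor
  · intro h
    have key : ∀ y, Ch r (x i) y → ∀ ε : ℝ, 0 < ε →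
        ∃ k, Relation.ReflTransGen (fun i j => dist (x i) (x j) < r) i k ∧ dist (x k) y < ε := by
      intro y hy
      induction hy with
      | refl => exact fun ε hε => ⟨i, Relation.ReflTransGen.refl, by rw [dist_self]; exact hε⟩
      | tail _ h ih =>
        rename_i y z _
        intro ε hε
        have h' : dist y z < r := h
        have hη : 0 < min ε ((r - dist y z) / 2) := lt_min hε (by linarith)
        obtain ⟨k, hk, hk2⟩ := ih _ hη
        obtain ⟨m, hm⟩ := hx.exists_dist_lt z hη
        have h1 := min_le_right ε ((r - dist y z) / 2)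
        have h2 := min_le_left ε ((r - dist y z) / 2)
        refine ⟨m, hk.tail ?_, ?_⟩
        · show dist (x k) (x m) < r
          have h3 := dist_triangle4 (x k) y z (x m)
          linarith
        · rw [dist_comm]; linarith
    obtain ⟨k, hk, hk2⟩ := key _ h r hr
    exact hk.tail hk2
  · intro h
    induction h with
    | refl => exact Ch.refl _
    | tail _ h ih => exact ih.trans (ch_of_lt h)

section
variable {U : Type} [MetricSpace U] [CompleteSpace U] [SeparableSpace U] [MeasurableSpace U]
  [BorelSpace U] {T : Type} [MetricSpace T] [CompleteSpace T] [SeparableSpace T] [Nonempty T]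

/-- **The functor is a Borel map on the space of nonempty closed subsets of `U`.** -/
theorem functor_borel (hU : ExtP U) (D : Dat T) :
    ∃ G : FU U → FU U, Measurable G ∧ ∀ F : FU U, Nonempty ((G F).1 ≃ᵢ W F.1 D) := by
  classical
  have hne : Nonempty U := by
    obtain ⟨u, -⟩ := hU [] (by intro p hp; simp at hp)
    exact ⟨u⟩
  obtain ⟨s, hs, hs2, hs3⟩ := castaing (U := U)
  let x : ∀ F : FU U, ℕ → F.1 := fun F n => ⟨s n F, hs2 n F⟩
  have hx : ∀ F, DenseRange (x F) := by
    intro F
    rw [Metric.denseRange_iff]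
    rintro ⟨y, hy⟩ r hr
    obtain ⟨n, hn⟩ := hs3 F y hy r hr
    exact ⟨n, hn⟩
  let t : ℕ → T := denseSeq T
  have ht : DenseRange t := denseRange_denseSeq T
  let w : ∀ F : FU U, ℕ → W F.1 D := fun F n => ⟨x F (Nat.unpair n).1, t (Nat.unpair n).2⟩
  have hw : ∀ F, DenseRange (w F) := by
    intro F
    have h1 := W.dense D (x F) t (hx F) ht
    have h2 : range (w F) = range fun p : ℕ × ℕ => (⟨x F p.1, t p.2⟩ : W F.1 D) := by
      apply Subset.antisymm
      · rintro _ ⟨n, rfl⟩
        exact ⟨Nat.unpair n, rfl⟩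
      · rintro _ ⟨p, rfl⟩
        refine ⟨Nat.pair p.1 p.2, ?_⟩
        simp only [w, Nat.unpair_pair]
    unfold DenseRange
    rw [h2]
    exact h1
  have hch : ∀ i j, MeasurableSet {F : FU U | Ch D.a (x F i) (x F j)} := by
    intro i j
    have h1 : {F : FU U | Ch D.a (x F i) (x F j)} =
        {F : FU U | Relation.ReflTransGen (fun i j => dist (x F i) (x F j) < D.a) i j} := by
      ext F
      exact ch_dense (hx F) D.ha i j
    rw [h1]
    refine measurable_rtg (fun F i j => dist (x F i) (x F j) < D.a) (fun i j => ?_) i j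
    exact measurableSet_lt ((hs i).dist (hs j)) measurable_const
  let δ : FU U → ℕ → ℕ → ℝ := fun F i j => dist (w F i) (w F j)
  have hδ : PMF δ := ⟨fun F i => dist_self _, fun F i j => dist_comm _ _,
    fun F i j k => dist_triangle _ _ _⟩
  have hm : ∀ i j, Measurable fun F => δ F i j := by
    intro i j
    have h1 : (fun F => δ F i j) = fun F =>
        max (max (dist (s (Nat.unpair i).1 F) (s (Nat.unpair j).1 F))
          (dist (t (Nat.unpair i).2) (t (Nat.unpair j).2))) (th D (w F i).pr (w F j).pr) := rfl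
    rw [h1]
    refine Measurable.max (Measurable.max ((hs _).dist (hs _)) measurable_const) ?_
    by_cases hL : t (Nat.unpair i).2 ∈ D.L ∧ t (Nat.unpair j).2 ∈ D.L
    · have h2 : (fun F => th D (w F i).pr (w F j).pr) =
          fun F => if F ∈ {F : FU U | Ch D.a (x F (Nat.unpair i).1) (x F (Nat.unpair j).1)}
            then (0 : ℝ) else D.b := by
        funext F
        by_cases hc : Ch D.a (x F (Nat.unpair i).1) (x F (Nat.unpair j).1)
        · rw [th_neg (fun h => h.2.2 hc), if_pos (show F ∈ {F : FU U | Ch D.a (x F (Nat.unpair i).1) (x F (Nat.unpair j).1)} from hc)]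
        · rw [th_pos ⟨hL.1, hL.2, hc⟩, if_neg (show F ∉ {F : FU U | Ch D.a (x F (Nat.unpair i).1) (x F (Nat.unpair j).1)} from hc)]
      rw [h2]
      exact Measurable.ite (hch _ _) measurable_const measurable_const
    · have h2 : (fun F => th D (w F i).pr (w F j).pr) = fun _ => (0 : ℝ) := by
        funext F
        exact th_neg fun h => hL ⟨h.1, h.2.1⟩
      rw [h2]
      exact measurable_const
  obtain ⟨G, hG, hG2⟩ := realise hU δ hδ hm
  refine ⟨G, hG, fun F => ?_⟩
  obtain ⟨v, hv, hv2⟩ := hG2 F
  have : CompleteSpace F.1 := F.2.completeSpace_coe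
  have : CompleteSpace (G F).1 := (G F).2.completeSpace_coe
  obtain ⟨e, -⟩ := iso_equiv v (w F) hv (hw F) hv2
  exact ⟨e⟩

end

end Pool.Agent.H660.PD
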