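import Mathlib

set_option autoImplicit false

/-!
# A measurable selection theorem

The theorem of Kuratowski and Ryll-Nardzewski for closed valued maps into a complete separable
metric space.
-/

namespace Pool.Agent.H660.PD

open Set TopologicalSpace Filter Topology

universe u v

lemma find_meas {Ω : Type u} [MeasurableSpace Ω] (R : Ω → ℕ → Prop)
    (hR : ∀ k, MeasurableSet {ω | R ω k}) (hex : ∀ ω, ∃ k, R ω k) :
    ∃ g : Ω → ℕ, Measurable g ∧ ∀ ω, R ω (g ω) := by
  classical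
  exact ⟨fun ω => Nat.find (hex ω), measurable_find hex hR, fun ω => Nat.find_spec (hex ω)⟩

section
variable {Ω : Type u} [MeasurableSpace Ω] {U : Type v} [MetricSpace U] [CompleteSpace U]
  [SeparableSpace U] [MeasurableSpace U] [BorelSpace U]

/-- **Measurable selection.** -/
theorem selection [Nonempty U] (Φ : Ω → Set U) (hc : ∀ ω, IsClosed (Φ ω))
    (hne : ∀ ω, (Φ ω).Nonempty)
    (hm : ∀ (u : U) (r : ℝ), MeasurableSet {ω | ∃ y ∈ Φ ω, dist y u < r}) :
    ∃ f : Ω → U, Measurable f ∧ ∀ ω, f ω ∈ Φ ω := by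
  classical
  let u : ℕ → U := denseSeq U
  have hu : DenseRange u := denseRange_denseSeq U
  let P : ℕ → (Ω → ℕ) → Prop := fun n g =>
    Measurable g ∧ ∀ ω, ∃ y ∈ Φ ω, dist y (u (g ω)) < (1 / 2) ^ n
  have hpos : ∀ n : ℕ, (0 : ℝ) < (1 / 2) ^ n := fun n => by positivity
  have h0 : ∃ g, P 0 g := by
    obtain ⟨g, hg, hg2⟩ := find_meas (fun ω k => ∃ y ∈ Φ ω, dist y (u k) < (1 / 2) ^ 0)
      (fun k => hm _ _) (fun ω => by
        obtain ⟨y, hy⟩ := hne ω
        obtain ⟨k, hk⟩ := hu.exists_dist_lt y (hpos 0)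
        exact ⟨k, y, hy, hk⟩)
    exact ⟨g, hg, hg2⟩
  have step : ∀ n (g : {g // P n g}), ∃ g' : {g' // P (n + 1) g'},
      ∀ ω, dist (u (g.1 ω)) (u (g'.1 ω)) < 2 * (1 / 2) ^ n := by
    rintro n ⟨g, hg, hg2⟩
    obtain ⟨g', hg', hg2'⟩ := find_meas
      (fun ω k => (∃ y ∈ Φ ω, dist y (u k) < (1 / 2) ^ (n + 1)) ∧
        dist (u (g ω)) (u k) < 2 * (1 / 2) ^ n)
      (fun k => by
        refine MeasurableSet.inter (hm _ _) ?_
        exact hg (MeasurableSet.of_discrete (s := {m : ℕ | dist (u m) (u k) < 2 * (1 / 2) ^ n})))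
      (fun ω => by
        obtain ⟨y, hy, hy2⟩ := hg2 ω
        obtain ⟨k, hk⟩ := hu.exists_dist_lt y (hpos (n + 1))
        refine ⟨k, ⟨y, hy, hk⟩, ?_⟩
        have h1 := dist_triangle (u (g ω)) y (u k)
        rw [dist_comm (u (g ω)) y] at h1
        have h2 : ((1 : ℝ) / 2) ^ (n + 1) ≤ (1 / 2) ^ n :=
          pow_le_pow_of_le_one (by norm_num) (by norm_num) (Nat.le_succ n)
        linarith)
    exact ⟨⟨g', hg', fun ω => (hg2' ω).1⟩, fun ω => (hg2' ω).2⟩
  obtain ⟨g0, hg0⟩ := h0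
  choose st hst using step
  let h : ∀ n, {g // P n g} := fun n => Nat.rec ⟨g0, hg0⟩ (fun n g => st n g) n
  have hs : ∀ n ω, dist (u ((h n).1 ω)) (u ((h (n + 1)).1 ω)) < 2 * (1 / 2) ^ n :=
    fun n ω => hst n (h n) ω
  have hcau : ∀ ω, ∃ x, Tendsto (fun n => u ((h n).1 ω)) atTop (𝓝 x) := fun ω =>
    cauchySeq_tendsto_of_complete
      (cauchySeq_of_le_geometric (1 / 2) 2 (by norm_num) fun n => (hs n ω).le)
  choose f hf using hcau
  refine ⟨f, ?_, fun ω => ?_⟩
  · refine measurable_of_tendsto_metrizable (f := fun n ω => u ((h n).1 ω)) (fun n => ?_)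
      (tendsto_pi_nhds.2 hf)
    exact (measurable_of_countable u).comp (h n).2.1
  · have h1 : ∀ n, ∃ y ∈ Φ ω, dist y (u ((h n).1 ω)) < (1 / 2) ^ n := fun n => (h n).2.2 ω
    choose y hy hy2 using h1
    have h2 : Tendsto (fun n => dist (u ((h n).1 ω)) (y n)) atTop (𝓝 0) := by
      refine squeeze_zero (fun n => dist_nonneg) (fun n => ?_)
        (tendsto_pow_atTop_nhds_zero_of_lt_one (r := (1 / 2 : ℝ)) (by norm_num) (by norm_num))
      rw [dist_comm]
      exact (hy2 n).le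
    have h3 : Tendsto y atTop (𝓝 (f ω)) := by
      refine (tendsto_iff_of_dist ?_).1 (hf ω)
      exact h2
    exact (hc ω).mem_of_tendsto h3 (Eventually.of_forall hy)

end

/-! ## Measurability of the reflexive transitive closure -/

/-- chains of length `n` -/
def RN {Ω : Type u} (R : Ω → ℕ → ℕ → Prop) : ℕ → Ω → ℕ → ℕ → Prop
  | 0, _, i, j => i = j
  | n + 1, ω, i, j => ∃ k, RN R n ω i k ∧ R ω k j

lemma rtg_iff {Ω : Type u} (R : Ω → ℕ → ℕ → Prop) (ω : Ω) (i j : ℕ) :
    Relation.ReflTransGen (R ω) i j ↔ ∃ n, RN R n ω i j := by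
  constructor
  · intro h
    induction h with
    | refl => exact ⟨0, rfl⟩
    | tail _ h ih =>
      obtain ⟨n, hn⟩ := ih
      exact ⟨n + 1, _, hn, h⟩
  · rintro ⟨n, hn⟩
    induction n generalizing j with
    | zero => cases hn; exact Relation.ReflTransGen.refl
    | succ n ih =>
      obtain ⟨k, hk, hk2⟩ := hn
      exact (ih k hk).tail hk2

lemma measurable_rtg {Ω : Type u} [MeasurableSpace Ω] (R : Ω → ℕ → ℕ → Prop)
    (h : ∀ i j, MeasurableSet {ω | R ω i j}) (i j : ℕ) :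
    MeasurableSet {ω | Relation.ReflTransGen (R ω) i j} := by
  have h1 : ∀ n i j, MeasurableSet {ω | RN R n ω i j} := by
    intro n
    induction n with
    | zero => intro i j; exact MeasurableSet.const (i = j)
    | succ n ih =>
      intro i j
      have : {ω | RN R (n + 1) ω i j} = ⋃ k, ({ω | RN R n ω i k} ∩ {ω | R ω k j}) := by
        ext ω
        simp only [RN, mem_ofPred_eq, mem_iUnion, mem_inter_iff]
      rw [this]
      exact MeasurableSet.iUnion fun k => (ih i k).inter (h k j)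
  have : {ω | Relation.ReflTransGen (R ω) i j} = ⋃ n, {ω | RN R n ω i j} := by
    ext ω
    simp only [mem_ofPred_eq, mem_iUnion, rtg_iff]
  rw [this]
  exact MeasurableSet.iUnion fun n => h1 n i j

end Pool.Agent.H660.PD
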